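import Mathlib

set_option autoImplicit false

/-!
# Folding products of irreducible polynomials into pseudo-random array codes (MP_2c8f22_co, Q1)

We disprove the statement of Q1.  The parameters of the counterexample are
`(r₁, r₂; n₁, n₂) = (5, 117; 3, 4)` and `k = 2`.
-/

namespace Pool.Agent.Results.MP_2c8f22_co.ProductNotPRAC

open Polynomial Finset

/-! ### Definitions -/

/-- The binary sequence `s` is generated by `f`: it satisfies the linear recurrence with
characteristic polynomial `f`. -/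
def GeneratedBy (f : (ZMod 2)[X]) (s : ℕ → ZMod 2) : Prop :=
  ∀ t, ∑ i ∈ range (f.natDegree + 1), f.coeff i * s (t + i) = 0

/-- `e` is the exponent of `f`: the least `e ≥ 1` with `f ∣ X ^ e - 1`. -/
def IsExponent (f : (ZMod 2)[X]) (e : ℕ) : Prop :=
  IsLeast {k : ℕ | 1 ≤ k ∧ f ∣ X ^ k - 1} e

/-- Doubly periodic binary `r₁ × r₂` arrays. -/
abbrev Arr (r₁ r₂ : ℕ) : Type := ZMod r₁ → ZMod r₂ → ZMod 2

variable {r₁ r₂ : ℕ}

/-- The cyclic shift of an array by `(i, j)`. -/
def shift (A : Arr r₁ r₂) (i : ZMod r₁) (j : ZMod r₂) : Arr r₁ r₂ :=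
  fun a b => A (a + i) (b + j)

/-- The `n₁ × n₂` window of `A` at `(i, j)`. -/
def window (n₁ n₂ : ℕ) (A : Arr r₁ r₂) (i : ZMod r₁) (j : ZMod r₂) :
    Matrix (Fin n₁) (Fin n₂) (ZMod 2) :=
  Matrix.of fun a b => A (i + ((a : ℕ) : ZMod r₁)) (j + ((b : ℕ) : ZMod r₂))

/-- `A` is a codeword of `C`: a cyclic shift of an array of `C`. -/
def IsCodeword (C : Set (Arr r₁ r₂)) (A : Arr r₁ r₂) : Prop :=
  ∃ B ∈ C, ∃ i j, A = shift B i j

/-- `C` is an `(r₁, r₂; n₁, n₂)`-PRAC. -/
structure IsPRAC (r₁ r₂ n₁ n₂ : ℕ) (C : Set (Arr r₁ r₂)) : Prop where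
  /-- `r₁ r₂` divides `2 ^ (n₁ n₂) - 1`. -/
  dvd : r₁ * r₂ ∣ 2 ^ (n₁ * n₂) - 1
  /-- Every nonzero matrix occurs exactly once as a window of exactly one array of `C`. -/
  window : ∀ M : Matrix (Fin n₁) (Fin n₂) (ZMod 2), M ≠ 0 →
    ∃! p : Arr r₁ r₂ × ZMod r₁ × ZMod r₂, p.1 ∈ C ∧ window n₁ n₂ p.1 p.2.1 p.2.2 = M
  /-- Shift-and-add, for two distinct arrays of `C`. -/
  add : ∀ A ∈ C, ∀ B ∈ C, A ≠ B → IsCodeword C (A + B)
  /-- Shift-and-add, for an array of `C` and a nontrivial cyclic shift of it. -/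
  add_shift : ∀ A ∈ C, ∀ i j, (i, j) ≠ 0 → IsCodeword C (A + shift A i j)

/-- `A` is the folding of the sequence `s` into an `r₁ × r₂` array. -/
def IsFolding (s : ℕ → ZMod 2) (A : Arr r₁ r₂) : Prop :=
  ∀ t : ℕ, t < r₁ * r₂ → A t t = s t

/-- `C` is obtained by folding the nonzero sequences generated by `f`, one array for each class of
sequences under shifts. -/
structure IsFoldedCode (f : (ZMod 2)[X]) (C : Set (Arr r₁ r₂)) : Prop where
  /-- every array of `C` is the folding of a nonzero sequence generated by `f` -/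
  mem : ∀ A ∈ C, ∃ s, s ≠ 0 ∧ GeneratedBy f s ∧ IsFolding s A
  /-- every nonzero sequence generated by `f` has exactly one array of `C` in its shift class -/
  existsUnique : ∀ s, s ≠ 0 → GeneratedBy f s →
    ∃! A : Arr r₁ r₂, A ∈ C ∧ ∃ k : ℕ, IsFolding (fun t => s (t + k)) A

/-! ### The shift operator -/

/-- The shift operator on sequences. -/
def S : Module.End (ZMod 2) (ℕ → ZMod 2) where
  toFun s t := s (t + 1)
  map_add' _ _ := rfl
  map_smul' _ _ := rfl

theorem S_pow_apply (k : ℕ) (s : ℕ → ZMod 2) (t : ℕ) : (S ^ k) s t = s (t + k) := by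
  induction k generalizing t with
  | zero => rfl
  | succ k ih =>
    rw [pow_succ', Module.End.mul_apply]
    change (S ^ k) s (t + 1) = _
    rw [ih]
    congr 1
    omega

theorem S_pow_eq (k : ℕ) (s : ℕ → ZMod 2) : (S ^ k) s = fun t => s (t + k) :=
  funext fun t => S_pow_apply k s t

theorem aeval_apply (f : (ZMod 2)[X]) (s : ℕ → ZMod 2) (t : ℕ) :
    aeval S f s t = ∑ i ∈ range (f.natDegree + 1), f.coeff i * s (t + i) := by
  rw [aeval_eq_sum_range, LinearMap.sum_apply, Finset.sum_apply]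
  refine Finset.sum_congr rfl fun i _ => ?_
  rw [LinearMap.smul_apply, Pi.smul_apply, S_pow_apply, smul_eq_mul]

theorem generatedBy_iff (f : (ZMod 2)[X]) (s : ℕ → ZMod 2) :
    GeneratedBy f s ↔ aeval S f s = 0 := by
  constructor
  · intro h
    funext t
    rw [aeval_apply]
    exact h t
  · intro h t
    rw [← aeval_apply, h]
    rfl

theorem GeneratedBy.of_dvd {f g : (ZMod 2)[X]} {s : ℕ → ZMod 2} (h : GeneratedBy f s)
    (hfg : f ∣ g) : GeneratedBy g s := by
  obtain ⟨q, rfl⟩ := hfg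
  rw [generatedBy_iff] at h ⊢
  rw [mul_comm, map_mul, Module.End.mul_apply, h, map_zero]

theorem GeneratedBy.shift {f : (ZMod 2)[X]} {s : ℕ → ZMod 2} (h : GeneratedBy f s) (k : ℕ) :
    GeneratedBy f (fun t => s (t + k)) := by
  intro t
  have := h (t + k)
  simpa [add_right_comm] using this

theorem GeneratedBy.add {f : (ZMod 2)[X]} {s s' : ℕ → ZMod 2} (h : GeneratedBy f s)
    (h' : GeneratedBy f s') : GeneratedBy f (s + s') := by
  rw [generatedBy_iff] at *
  rw [map_add, h, h', add_zero]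

theorem generatedBy_X_pow_sub_one {s : ℕ → ZMod 2} {e : ℕ} :
    GeneratedBy (X ^ e - 1) s ↔ ∀ t, s (t + e) = s t := by
  rw [generatedBy_iff, map_sub, map_pow, aeval_X, map_one]
  constructor
  · intro h t
    have := congrFun h t
    rw [LinearMap.sub_apply, Pi.sub_apply, S_pow_apply, Module.End.one_apply] at this
    exact sub_eq_zero.1 this
  · intro h
    funext t
    rw [LinearMap.sub_apply, Pi.sub_apply, S_pow_apply, Module.End.one_apply, h t, sub_self]
    rfl

/-- If a sequence is generated by an irreducible polynomial of exponent `e` and is nonzero, then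
its shifts by distinct residues modulo `e` are distinct. -/
theorem shift_eq_self {f : (ZMod 2)[X]} (hf : Irreducible f) {e : ℕ} (he : IsExponent f e)
    {s : ℕ → ZMod 2} (hs : GeneratedBy f s) (hs0 : s ≠ 0) {k : ℕ}
    (hk : ∀ t, s (t + k) = s t) : e ∣ k := by
  by_contra hnd
  -- replace `k` by `k % e`
  have hper : ∀ t, s (t + e) = s t :=
    generatedBy_X_pow_sub_one.1 (hs.of_dvd he.1.2)
  have hper' : ∀ m t, s (t + e * m) = s t := by
    intro m
    induction m with
    | zero => intro t; simp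
    | succ m ih => intro t; rw [Nat.mul_succ, ← add_assoc, hper, ih]
  have hk' : ∀ t, s (t + k % e) = s t := by
    intro t
    rw [← hk t, ← hper' (k / e) (t + k % e), add_assoc, Nat.mod_add_div]
  have hpos : 0 < k % e := Nat.pos_of_ne_zero fun h => hnd (Nat.dvd_of_mod_eq_zero h)
  have hlt : k % e < e := Nat.mod_lt _ he.1.1
  have hndvd : ¬ f ∣ X ^ (k % e) - 1 := fun hd => absurd (he.2 ⟨hpos, hd⟩) (not_le.2 hlt)
  obtain ⟨a, b, hab⟩ := (hf.coprime_iff_not_dvd.2 hndvd)
  have h1 := hk'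
  rw [← generatedBy_X_pow_sub_one, generatedBy_iff] at h1
  rw [generatedBy_iff] at hs
  apply hs0
  have : aeval S (a * f + b * (X ^ (k % e) - 1)) s = s := by
    rw [hab, map_one, Module.End.one_apply]
  rw [← this, map_add, map_mul, map_mul, LinearMap.add_apply, Module.End.mul_apply,
    Module.End.mul_apply, hs, h1, map_zero, map_zero, add_zero]

/-! ### Folding -/

theorem exists_crt (h : Nat.Coprime r₁ r₂) [NeZero r₁] [NeZero r₂] (i : ZMod r₁) (j : ZMod r₂) :
    ∃ k : ℕ, k < r₁ * r₂ ∧ (k : ZMod r₁) = i ∧ (k : ZMod r₂) = j := by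
  obtain ⟨k, hk1, hk2⟩ := Nat.chineseRemainder h i.val j.val
  refine ⟨k % (r₁ * r₂), Nat.mod_lt _ (Nat.mul_pos (NeZero.pos _) (NeZero.pos _)), ?_, ?_⟩
  · rw [← ZMod.natCast_zmod_val i, ZMod.natCast_eq_natCast_iff]
    exact ((Nat.mod_modEq k (r₁ * r₂)).of_mul_right r₂).trans hk1
  · rw [← ZMod.natCast_zmod_val j, ZMod.natCast_eq_natCast_iff]
    exact ((Nat.mod_modEq k (r₁ * r₂)).of_mul_left r₁).trans hk2

theorem crt_unique (h : Nat.Coprime r₁ r₂) {k k' : ℕ} (h1 : (k : ZMod r₁) = k')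
    (h2 : (k : ZMod r₂) = k') : k ≡ k' [MOD r₁ * r₂] := by
  rw [ZMod.natCast_eq_natCast_iff] at h1 h2
  exact (Nat.modEq_and_modEq_iff_modEq_mul h).1 ⟨h1, h2⟩

theorem periodic_modEq {s : ℕ → ZMod 2} {e : ℕ} (hper : ∀ t, s (t + e) = s t) {k k' : ℕ}
    (h : k ≡ k' [MOD e]) : s k = s k' := by
  have hp : Function.Periodic s e := hper
  rw [← hp.map_mod_nat k, ← hp.map_mod_nat k', h]

theorem isFolding_iff {s : ℕ → ZMod 2} (hr : 0 < r₁ * r₂) (hper : ∀ t, s (t + r₁ * r₂) = s t)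
    {A : Arr r₁ r₂} : IsFolding s A ↔ ∀ t : ℕ, A t t = s t := by
  refine ⟨fun h t => ?_, fun h t _ => h t⟩
  have h1 := h (t % (r₁ * r₂)) (Nat.mod_lt _ hr)
  have h2 : ((t % (r₁ * r₂) : ℕ) : ZMod r₁) = t := by
    rw [ZMod.natCast_eq_natCast_iff]
    exact (Nat.mod_modEq t (r₁ * r₂)).of_mul_right r₂
  have h3 : ((t % (r₁ * r₂) : ℕ) : ZMod r₂) = t := by
    rw [ZMod.natCast_eq_natCast_iff]
    exact (Nat.mod_modEq t (r₁ * r₂)).of_mul_left r₁
  rw [h2, h3] at h1
  rw [h1]
  exact periodic_modEq hper (Nat.mod_modEq t _)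

/-- The folding of a sequence exists. -/
theorem exists_isFolding (h : Nat.Coprime r₁ r₂) [NeZero r₁] [NeZero r₂] {s : ℕ → ZMod 2}
    (hper : ∀ t, s (t + r₁ * r₂) = s t) : ∃ A : Arr r₁ r₂, ∀ t : ℕ, A t t = s t := by
  choose k _ hk1 hk2 using exists_crt (r₁ := r₁) (r₂ := r₂) h
  refine ⟨fun i j => s (k i j), fun t => ?_⟩
  exact periodic_modEq hper (crt_unique h (hk1 _ _) (hk2 _ _))

theorem eq_of_diag (h : Nat.Coprime r₁ r₂) [NeZero r₁] [NeZero r₂] {A B : Arr r₁ r₂}
    (hAB : ∀ t : ℕ, A t t = B t t) : A = B := by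
  funext i j
  obtain ⟨k, -, rfl, hk⟩ := exists_crt h i j
  rw [← hk]
  exact hAB k

theorem shift_diag {A : Arr r₁ r₂} {s : ℕ → ZMod 2} (hA : ∀ t : ℕ, A t t = s t) (k t : ℕ) :
    shift A (k : ZMod r₁) (k : ZMod r₂) t t = s (t + k) := by
  rw [shift, ← hA (t + k)]
  push_cast
  rfl

/-- A code obtained by folding exists. -/
theorem exists_isFoldedCode (h : Nat.Coprime r₁ r₂) [NeZero r₁] [NeZero r₂] {f : (ZMod 2)[X]}
    (hf : f ∣ X ^ (r₁ * r₂) - 1) : ∃ C : Set (Arr r₁ r₂), IsFoldedCode f C := by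
  classical
  have hr : 0 < r₁ * r₂ := Nat.mul_pos (NeZero.pos _) (NeZero.pos _)
  have hper : ∀ s, GeneratedBy f s → ∀ t, s (t + r₁ * r₂) = s t := fun s hs =>
    generatedBy_X_pow_sub_one.1 (hs.of_dvd hf)
  let r : Setoid (Arr r₁ r₂) :=
    { r := fun A B => ∃ i j, B = shift A i j
      iseqv :=
        { refl := fun A => ⟨0, 0, by funext a b; simp [shift]⟩
          symm := by
            rintro A B ⟨i, j, rfl⟩
            exact ⟨-i, -j, by funext a b; simp [shift]⟩
          trans := by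
            rintro A B D ⟨i, j, rfl⟩ ⟨i', j', rfl⟩
            exact ⟨i' + i, j' + j, by funext a b; simp [shift, add_assoc]⟩ } }
  -- the chosen representative of the class of `A`
  let out : Arr r₁ r₂ → Arr r₁ r₂ := fun A => Quotient.out (Quotient.mk r A)
  have hout : ∀ A, ∃ i j, out A = shift A i j := fun A =>
    r.symm (Quotient.mk_out (s := r) A)
  have hout' : ∀ A i j, out (shift A i j) = out A := fun A i j => by
    have : Quotient.mk r (shift A i j) = Quotient.mk r A :=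
      Quotient.sound (s := r) (r.symm ⟨i, j, rfl⟩)
    change Quotient.out (Quotient.mk r (shift A i j)) = Quotient.out (Quotient.mk r A)
    rw [this]
  refine ⟨{A | out A = A ∧ ∃ s, s ≠ 0 ∧ GeneratedBy f s ∧ IsFolding s A}, fun A hA => hA.2, ?_⟩
  intro s hs0 hs
  obtain ⟨A, hA⟩ := exists_isFolding h (hper s hs)
  refine ⟨out A, ⟨⟨?_, ?_⟩, ?_⟩, ?_⟩
  · obtain ⟨i, j, hij⟩ := hout A
    nth_rewrite 1 [hij]
    exact hout' A i j
  · obtain ⟨i, j, hij⟩ := hout A
    obtain ⟨k, -, rfl, rfl⟩ := exists_crt h i j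
    refine ⟨fun t => s (t + k), ?_, hs.shift k, fun t _ => ?_⟩
    · intro h0
      apply hs0
      funext t
      have h1 := congrFun h0 (t + (r₁ * r₂ - 1) * k)
      simp only [Pi.zero_apply] at h1
      rw [Pi.zero_apply, ← h1]
      refine periodic_modEq (hper s hs) ?_
      have : t + (r₁ * r₂ - 1) * k + k = t + r₁ * r₂ * k := by
        obtain ⟨m, hm⟩ := Nat.exists_eq_succ_of_ne_zero hr.ne'
        rw [hm]
        simp only [Nat.succ_eq_add_one, Nat.add_sub_cancel]
        ring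
      rw [this]
      simp [Nat.ModEq]
    · rw [hij]
      exact shift_diag hA k t
  · obtain ⟨i, j, hij⟩ := hout A
    obtain ⟨k, -, rfl, rfl⟩ := exists_crt h i j
    refine ⟨k, fun t _ => ?_⟩
    rw [hij]
    exact shift_diag hA k t
  · rintro B ⟨⟨hB, -⟩, k, hk⟩
    have hB' : B = shift A (k : ZMod r₁) (k : ZMod r₂) := by
      refine eq_of_diag h fun t => ?_
      rw [shift_diag hA]
      have hp : ∀ t, s (t + r₁ * r₂ + k) = s (t + k) := fun t => by
        rw [add_right_comm]; exact hper s hs _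
      exact (isFolding_iff hr hp).1 hk t
    rw [← hB, hB', hout']

/-- The linear recurrence attached to a monic polynomial. -/
def recur (f : (ZMod 2)[X]) : LinearRecurrence (ZMod 2) where
  order := f.natDegree
  coeffs i := - f.coeff i

theorem isSolution_iff {f : (ZMod 2)[X]} (hm : f.Monic) (s : ℕ → ZMod 2) :
    (recur f).IsSolution s ↔ GeneratedBy f s := by
  refine forall_congr' fun t => ?_
  rw [Finset.sum_range_succ, hm.coeff_natDegree, one_mul]
  simp only [recur, neg_mul, Finset.sum_neg_distrib]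
  rw [Finset.sum_range (fun i => f.coeff i * s (t + i)), ← sub_eq_zero (a := s _), sub_neg_eq_add,
    add_comm]
  rfl

theorem exists_generatedBy_of_injective {f : (ZMod 2)[X]} (hm : f.Monic) {n₁ n₂ : ℕ}
    (hdeg : f.natDegree = n₁ * n₂) (κ : Fin n₁ → Fin n₂ → ℕ)
    (hinj : ∀ s, GeneratedBy f s → (∀ a b, s (κ a b) = 0) → s = 0)
    (M : Matrix (Fin n₁) (Fin n₂) (ZMod 2)) : ∃ s, GeneratedBy f s ∧ ∀ a b, s (κ a b) = M a b := by
  classical
  let T : (recur f).solSpace →ₗ[ZMod 2] Matrix (Fin n₁) (Fin n₂) (ZMod 2) :=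
    { toFun := fun s => Matrix.of fun a b => s.1 (κ a b)
      map_add' := fun s s' => rfl
      map_smul' := fun c s => rfl }
  have hT : Function.Injective T := by
    rw [injective_iff_map_eq_zero]
    intro s hs
    refine Subtype.ext ?_
    refine hinj s.1 ((isSolution_iff hm _).1 s.2) fun a b => ?_
    exact congrFun (congrFun hs a) b
  have e : (recur f).solSpace ≃ (Fin f.natDegree → ZMod 2) := (recur f).toInit.toEquiv
  have : Finite (recur f).solSpace := Finite.of_equiv _ e.symm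
  have hcard : Nat.card (Matrix (Fin n₁) (Fin n₂) (ZMod 2)) ≤ Nat.card (recur f).solSpace := by
    rw [Nat.card_congr e]
    simp only [Matrix, Nat.card_eq_fintype_card, Fintype.card_fun, Fintype.card_fin, hdeg,
      ZMod.card]
    rw [mul_comm, pow_mul]
  have hbij := hT.bijective_of_nat_card_le hcard
  obtain ⟨s, hs⟩ := hbij.2 M
  refine ⟨s.1, (isSolution_iff hm _).1 s.2, fun a b => ?_⟩
  exact congrFun (congrFun hs a) b

theorem exists_neg (h : Nat.Coprime r₁ r₂) [NeZero r₁] [NeZero r₂] (k : ℕ) :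
    ∃ m : ℕ, (m : ZMod r₁) = -(k : ZMod r₁) ∧ (m : ZMod r₂) = -(k : ZMod r₂) ∧
      m + k ≡ 0 [MOD r₁ * r₂] := by
  obtain ⟨m, -, hm1, hm2⟩ := exists_crt h (-(k : ZMod r₁)) (-(k : ZMod r₂))
  refine ⟨m, hm1, hm2, crt_unique h ?_ ?_⟩
  · push_cast
    rw [hm1]
    simp
  · push_cast
    rw [hm2]
    simp

/-- The general criterion: if `f` is irreducible of exponent `r₁ r₂` and degree `n₁ n₂`, and a
sequence generated by `f` is zero as soon as its window at `(0, 0)` is, then folding the nonzero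
sequences generated by `f` gives a PRAC. -/
theorem isPRAC_of_injective (h : Nat.Coprime r₁ r₂) [NeZero r₁] [NeZero r₂] {f : (ZMod 2)[X]}
    (hf : Irreducible f) (hm : f.Monic) (he : IsExponent f (r₁ * r₂)) {n₁ n₂ : ℕ}
    (hdeg : f.natDegree = n₁ * n₂) (hdvd : r₁ * r₂ ∣ 2 ^ (n₁ * n₂) - 1)
    (hinj : ∀ s, GeneratedBy f s →
      (∀ (a : Fin n₁) (b : Fin n₂) (t : ℕ), (t : ZMod r₁) = (a : ℕ) → (t : ZMod r₂) = (b : ℕ) →
        s t = 0) → s = 0)
    (C : Set (Arr r₁ r₂)) (hC : IsFoldedCode f C) : IsPRAC r₁ r₂ n₁ n₂ C := by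
  have hr : 0 < r₁ * r₂ := Nat.mul_pos (NeZero.pos _) (NeZero.pos _)
  have hper : ∀ s, GeneratedBy f s → ∀ t, s (t + r₁ * r₂) = s t := fun s hs =>
    generatedBy_X_pow_sub_one.1 (hs.of_dvd he.1.2)
  have hmod : ∀ s, GeneratedBy f s → ∀ k k', k ≡ k' [MOD r₁ * r₂] → s k = s k' :=
    fun s hs k k' hkk' => periodic_modEq (hper s hs) hkk'
  -- folding of a shifted sequence, for all indices
  have hfold : ∀ s, GeneratedBy f s → ∀ k (A : Arr r₁ r₂), IsFolding (fun t => s (t + k)) A →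
      ∀ t : ℕ, A t t = s (t + k) := fun s hs k A hA =>
    (isFolding_iff hr (hper _ (hs.shift k))).1 hA
  have hfold0 : ∀ s, GeneratedBy f s → ∀ (A : Arr r₁ r₂), IsFolding s A →
      ∀ t : ℕ, A t t = s t := fun s hs A hA => (isFolding_iff hr (hper _ hs)).1 hA
  have hgen_add : ∀ s s' : ℕ → ZMod 2, GeneratedBy f s → GeneratedBy f s' →
      GeneratedBy f (s + s') := fun s s' hs hs' => hs.add hs'
  -- every nonzero generated sequence folds to a codeword
  have hcode : ∀ s, GeneratedBy f s → s ≠ 0 → ∀ B : Arr r₁ r₂, (∀ t : ℕ, B t t = s t) →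
      IsCodeword C B := by
    intro s hs hs0 B hB
    obtain ⟨A, ⟨hAC, k, hk⟩, -⟩ := hC.existsUnique s hs0 hs
    obtain ⟨m, -, -, hmk⟩ := exists_neg h k
    refine ⟨A, hAC, m, m, eq_of_diag h fun t => ?_⟩
    rw [hB, shift_diag (hfold s hs k A hk)]
    refine hmod s hs _ _ ?_
    have : t + m + k = t + (m + k) := by ring
    rw [this]
    exact (Nat.ModEq.add_left t hmk).symm
  -- positions of the window at `(0, 0)`
  choose κ0 _ hκ1 hκ2 using exists_crt (r₁ := r₁) (r₂ := r₂) h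
  let κ : Fin n₁ → Fin n₂ → ℕ := fun a b => κ0 ((a : ℕ) : ZMod r₁) ((b : ℕ) : ZMod r₂)
  have hκ : ∀ s, GeneratedBy f s → ∀ (a : Fin n₁) (b : Fin n₂) (t : ℕ),
      (t : ZMod r₁) = (a : ℕ) → (t : ZMod r₂) = (b : ℕ) → s t = s (κ a b) := by
    intro s hs a b t h1 h2
    refine hmod s hs _ _ (crt_unique h ?_ ?_)
    · rw [h1]; exact (hκ1 _ _).symm
    · rw [h2]; exact (hκ2 _ _).symm
  have hinj' : ∀ s, GeneratedBy f s → (∀ a b, s (κ a b) = 0) → s = 0 := fun s hs h0 =>
    hinj s hs fun a b t h1 h2 => by rw [hκ s hs a b t h1 h2, h0]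
  have hinj2 : ∀ s s', GeneratedBy f s → GeneratedBy f s' →
      (∀ a b, s (κ a b) = s' (κ a b)) → s = s' := by
    intro s s' hs hs' hss
    have h0 := hinj' (s + s') (hgen_add s s' hs hs') fun a b => by
      rw [Pi.add_apply, hss a b]
      exact CharTwo.add_self_eq_zero _
    funext t
    have := congrFun h0 t
    rw [Pi.add_apply, Pi.zero_apply] at this
    exact CharTwo.add_eq_zero.1 this
  have hwin : ∀ (A : Arr r₁ r₂) (s : ℕ → ZMod 2), (∀ t : ℕ, A t t = s t) → ∀ (m : ℕ) a b,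
      window n₁ n₂ A (m : ZMod r₁) (m : ZMod r₂) a b = s (m + κ a b) := by
    intro A s hA m a b
    rw [← hA (m + κ a b)]
    simp only [window, Matrix.of_apply]
    push_cast
    rw [show ((κ a b : ℕ) : ZMod r₁) = ((a : ℕ) : ZMod r₁) from hκ1 _ _,
      show ((κ a b : ℕ) : ZMod r₂) = ((b : ℕ) : ZMod r₂) from hκ2 _ _]
  refine ⟨hdvd, ?_, ?_, ?_⟩
  · intro M hM
    obtain ⟨s, hs, hsM⟩ := exists_generatedBy_of_injective hm hdeg κ hinj' M
    have hs0 : s ≠ 0 := by
      rintro rfl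
      apply hM
      ext a b
      rw [← hsM a b]
      rfl
    obtain ⟨A, ⟨hAC, k, hk⟩, huniq⟩ := hC.existsUnique s hs0 hs
    have hA := hfold s hs k A hk
    obtain ⟨m, hm1, hm2, hmk⟩ := exists_neg h k
    refine ⟨(A, (m : ZMod r₁), (m : ZMod r₂)), ⟨hAC, ?_⟩, ?_⟩
    · ext a b
      rw [hwin A (fun t => s (t + k)) hA m a b, ← hsM a b]
      refine hmod s hs _ _ ?_
      have : m + κ a b + k = κ a b + (m + k) := by ring
      rw [this]
      exact Nat.ModEq.add_left (κ a b) hmk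
    · rintro ⟨A', i', j'⟩ ⟨hA'C, hwA'⟩
      obtain ⟨m', -, rfl, rfl⟩ := exists_crt h i' j'
      simp only at hA'C hwA'
      obtain ⟨s', hs'0, hs', hfA'⟩ := hC.mem A' hA'C
      have hA' := hfold0 s' hs' A' hfA'
      have hs'' : (fun t => s' (t + m')) = s := by
        refine hinj2 _ _ (hs'.shift m') hs fun a b => ?_
        rw [hsM a b, ← hwA', hwin A' s' hA' m' a b, add_comm]
      obtain ⟨k', hk'1, hk'2, hk'⟩ := exists_neg h m'
      have hAA' : A' = A := by
        refine huniq A' ⟨hA'C, k', fun t _ => ?_⟩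
        rw [hA', ← hs'']
        refine hmod s' hs' _ _ ?_
        have : t + k' + m' = t + (k' + m') := by ring
        rw [this]
        exact (Nat.ModEq.add_left t hk').symm
      subst hAA'
      have hself : ∀ t, s' (t + (k + m')) = s' t := by
        intro t
        rw [← hA' t, hA t, ← hs'', ← add_assoc]
      have hE := shift_eq_self hf he hs' hs'0 hself
      have h1 : m' ≡ m [MOD r₁ * r₂] := by
        have h2 : k + m' ≡ m + k [MOD r₁ * r₂] :=
          ((Nat.modEq_zero_iff_dvd).2 hE).trans hmk.symm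
        rw [add_comm m k] at h2
        exact Nat.ModEq.add_left_cancel' k h2
      have e1 : (m' : ZMod r₁) = (m : ZMod r₁) := by
        rw [ZMod.natCast_eq_natCast_iff]
        exact h1.of_mul_right r₂
      have e2 : (m' : ZMod r₂) = (m : ZMod r₂) := by
        rw [ZMod.natCast_eq_natCast_iff]
        exact h1.of_mul_left r₁
      rw [e1, e2]
  · intro A hA B hB hAB
    obtain ⟨s, -, hs, hfA⟩ := hC.mem A hA
    obtain ⟨s', -, hs', hfB⟩ := hC.mem B hB
    have hA' := hfold0 s hs A hfA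
    have hB' := hfold0 s' hs' B hfB
    refine hcode (s + s') (hgen_add s s' hs hs') ?_ (A + B) fun t => ?_
    · intro h0
      apply hAB
      refine eq_of_diag h fun t => ?_
      rw [hA', hB']
      have := congrFun h0 t
      rw [Pi.add_apply, Pi.zero_apply] at this
      exact CharTwo.add_eq_zero.1 this
    · rw [Pi.add_apply, Pi.add_apply, hA', hB', Pi.add_apply]
  · intro A hA i j hij
    obtain ⟨s, hs0, hs, hfA⟩ := hC.mem A hA
    have hA' := hfold0 s hs A hfA
    obtain ⟨m, -, rfl, rfl⟩ := exists_crt h i j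
    refine hcode (s + fun t => s (t + m)) (hgen_add _ _ hs (hs.shift m)) ?_ _ fun t => ?_
    · intro h0
      apply hij
      have hself : ∀ t, s (t + m) = s t := by
        intro t
        have := congrFun h0 t
        rw [Pi.add_apply, Pi.zero_apply] at this
        exact (CharTwo.add_eq_zero.1 this).symm
      have hE := shift_eq_self hf he hs hs0 hself
      have h1 : m ≡ 0 [MOD r₁ * r₂] := (Nat.modEq_zero_iff_dvd).2 hE
      have e1 : (m : ZMod r₁) = ((0 : ℕ) : ZMod r₁) := by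
        rw [ZMod.natCast_eq_natCast_iff]
        exact h1.of_mul_right r₂
      have e2 : (m : ZMod r₂) = ((0 : ℕ) : ZMod r₂) := by
        rw [ZMod.natCast_eq_natCast_iff]
        exact h1.of_mul_left r₁
      rw [e1, e2]
      simp
    · rw [Pi.add_apply, Pi.add_apply, hA', shift_diag hA', Pi.add_apply]

/-- The general obstruction: if the positions of the `n₁ × n₂` window satisfy a nontrivial linear
relation modulo `f`, then folding the sequences generated by `f` does not give a PRAC. -/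
theorem not_isPRAC_of_relation (h : Nat.Coprime r₁ r₂) [NeZero r₁] [NeZero r₂] {f : (ZMod 2)[X]}
    (he : f ∣ X ^ (r₁ * r₂) - 1) {n₁ n₂ : ℕ}
    (Λ : Finset (Fin n₁ × Fin n₂)) (κ : Fin n₁ × Fin n₂ → ℕ)
    (hκ1 : ∀ p, (κ p : ZMod r₁) = (p.1 : ℕ)) (hκ2 : ∀ p, (κ p : ZMod r₂) = (p.2 : ℕ))
    (hΛ : Λ.Nonempty) (hrel : f ∣ ∑ p ∈ Λ, X ^ (κ p))
    (C : Set (Arr r₁ r₂)) (hC : IsFoldedCode f C) : ¬ IsPRAC r₁ r₂ n₁ n₂ C := by
  intro hP
  obtain ⟨q, hq⟩ := hΛ
  obtain ⟨⟨A, i, j⟩, ⟨hAC, hw⟩, -⟩ := hP.window (Matrix.single q.1 q.2 1) (by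
    intro h0
    have := congrFun (congrFun h0 q.1) q.2
    simp at this)
  simp only at hAC hw
  obtain ⟨s, -, hs, hfA⟩ := hC.mem A hAC
  have hr : 0 < r₁ * r₂ := Nat.mul_pos (NeZero.pos _) (NeZero.pos _)
  have hA := (isFolding_iff hr (generatedBy_X_pow_sub_one.1 (hs.of_dvd he))).1 hfA
  obtain ⟨m, -, rfl, rfl⟩ := exists_crt h i j
  have hwin : ∀ p : Fin n₁ × Fin n₂, s (m + κ p) = Matrix.single q.1 q.2 (1 : ZMod 2) p.1 p.2 := by
    intro p
    rw [← hw, ← hA (m + κ p)]
    simp only [window, Matrix.of_apply]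
    push_cast
    rw [hκ1, hκ2]
  have h1 := hs.of_dvd hrel
  rw [generatedBy_iff, map_sum, LinearMap.sum_apply] at h1
  have h2 := congrFun h1 m
  rw [Finset.sum_apply] at h2
  simp only [map_pow, aeval_X, S_pow_apply, hwin, Pi.zero_apply] at h2
  rw [Finset.sum_eq_single q] at h2
  · simp at h2
  · intro p _ hpq
    rw [Matrix.single_apply_of_ne]
    rintro ⟨h3, h4⟩
    exact hpq (Prod.ext h3.symm h4.symm)
  · intro hnot
    exact absurd hq hnot

/-! ### Binary polynomials coded by natural numbers -/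

/-- The polynomial over `𝔽₂` whose coefficients are the binary digits of `n < 2 ^ 13`. -/
noncomputable def toPoly (n : ℕ) : (ZMod 2)[X] :=
  ∑ i ∈ range 13, if n.testBit i then X ^ i else 0

theorem coeff_toPoly (n i : ℕ) :
    (toPoly n).coeff i = if i < 13 ∧ n.testBit i = true then 1 else 0 := by
  rw [toPoly, finsetSum_coeff]
  by_cases hi : i < 13
  · rw [Finset.sum_eq_single i]
    · by_cases hb : n.testBit i = true
      · simp [hb, hi]
      · simp [hb]
    · intro j _ hji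
      by_cases hb : n.testBit j = true
      · simp [hb, coeff_X_pow, Ne.symm hji]
      · simp [hb]
    · intro hnot
      exact absurd (Finset.mem_range.2 hi) hnot
  · rw [if_neg (fun h => hi h.1)]
    refine Finset.sum_eq_zero fun j hj => ?_
    have hji : i ≠ j := fun h => hi (h ▸ Finset.mem_range.1 hj)
    by_cases hb : n.testBit j = true
    · simp [hb, coeff_X_pow, hji]
    · simp [hb]

theorem toPoly_xor (a b : ℕ) : toPoly (a ^^^ b) = toPoly a + toPoly b := by
  ext i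
  rw [coeff_add, coeff_toPoly, coeff_toPoly, coeff_toPoly, Nat.testBit_xor]
  by_cases hi : i < 13
  · cases ha : a.testBit i <;> cases hb : b.testBit i <;> simp [hi]
    exact (CharTwo.add_self_eq_zero (1 : ZMod 2)).symm
  · simp [hi]

theorem toPoly_zero : toPoly 0 = 0 := by
  simp [toPoly]

theorem toPoly_two_pow {i : ℕ} (hi : i < 13) : toPoly (2 ^ i) = X ^ i := by
  ext j
  rw [coeff_toPoly, coeff_X_pow, Nat.testBit_two_pow]
  by_cases hij : i = j
  · subst hij
    simp [hi]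
  · simp [hij, Ne.symm hij]

theorem toPoly_one : toPoly 1 = 1 := by
  have := toPoly_two_pow (i := 0) (by norm_num)
  simpa using this

theorem toPoly_two_mul {a : ℕ} (ha : a < 4096) : toPoly (2 * a) = X * toPoly a := by
  ext i
  rcases i with _ | i
  · rw [mul_coeff_zero, coeff_X_zero, zero_mul, coeff_toPoly]
    simp
  · have hb : (2 * a).testBit (i + 1) = a.testBit i := by
      rw [Nat.testBit_succ, Nat.mul_div_cancel_left a (by norm_num)]
    rw [coeff_X_mul, coeff_toPoly, coeff_toPoly, hb]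
    by_cases hi : i + 1 < 13
    · have : i < 13 := by omega
      simp [hi, this]
    · rw [if_neg (fun h => hi h.1), if_neg]
      rintro ⟨h2, h3⟩
      have : i = 12 := by omega
      subst this
      rw [Nat.testBit_lt_two_pow (by simpa using ha)] at h3
      exact absurd h3 (by simp)

theorem toPoly_eq_zero {a : ℕ} (ha : a < 8192) (h : toPoly a = 0) : a = 0 := by
  refine Nat.eq_of_testBit_eq fun i => ?_
  rw [Nat.zero_testBit]
  by_cases hi : i < 13
  · have := congrArg (fun p => p.coeff i) h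
    simp only [coeff_toPoly, coeff_zero] at this
    by_contra hb
    rw [Bool.not_eq_false] at hb
    rw [if_pos ⟨hi, hb⟩] at this
    exact one_ne_zero this
  · exact Nat.testBit_lt_two_pow (lt_of_lt_of_le ha
      (by calc 8192 = 2 ^ 13 := by norm_num
            _ ≤ 2 ^ i := Nat.pow_le_pow_right (by norm_num) (by omega)))

theorem degree_toPoly_lt {a : ℕ} (ha : a < 4096) : (toPoly a).degree < (12 : ℕ) := by
  rw [degree_lt_iff_coeff_zero]
  intro i hi
  rw [coeff_toPoly, if_neg]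
  rintro ⟨-, h⟩
  rw [Nat.testBit_lt_two_pow (lt_of_lt_of_le ha
      (by calc 4096 = 2 ^ 12 := by norm_num
            _ ≤ 2 ^ i := Nat.pow_le_pow_right (by norm_num) hi))] at h
  exact absurd h (by simp)

/-- Multiplication by `X` modulo the polynomial coded by `F`. -/
def step (F n : ℕ) : ℕ := (2 * n) ^^^ (F * (2 * n / 4096))

/-- The code of `X ^ t` modulo the polynomial coded by `F`. -/
def pw (F : ℕ) : ℕ → ℕ
  | 0 => 1
  | t + 1 => step F (pw F t)

/-- The code of a sum of powers of `X` modulo the polynomial coded by `F`. -/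
def xs (F : ℕ) (L : List ℕ) : ℕ := L.foldr (fun t acc => pw F t ^^^ acc) 0

theorem xor_lt {F m : ℕ} (hF : 4096 ≤ F) (hF' : F < 8192) (hm : 4096 ≤ m) (hm' : m < 8192) :
    m ^^^ F < 4096 := by
  have e : ∀ x, 4096 ≤ x → x < 8192 → x.testBit 12 = true := by
    intro x h1 h2
    have h3 : x / 4096 = 1 := by omega
    rw [Nat.testBit_eq_decide_div_mod_eq]
    norm_num [h3]
  refine Nat.lt_pow_two_of_testBit (n := 12) _ fun i hi => ?_
  rw [Nat.testBit_xor]
  rcases Nat.eq_or_lt_of_le hi with h | h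
  · subst h
    rw [e m hm hm', e F hF hF']
    rfl
  · have h13 : (8192 : ℕ) ≤ 2 ^ i := by
      calc 8192 = 2 ^ 13 := by norm_num
        _ ≤ 2 ^ i := Nat.pow_le_pow_right (by norm_num) h
    rw [Nat.testBit_lt_two_pow (lt_of_lt_of_le hm' h13),
      Nat.testBit_lt_two_pow (lt_of_lt_of_le hF' h13)]
    rfl

theorem step_spec {F n : ℕ} (hF : 4096 ≤ F) (hF' : F < 8192) (hn : n < 4096) :
    step F n < 4096 ∧ toPoly F ∣ X * toPoly n - toPoly (step F n) := by
  by_cases h : 2 * n < 4096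
  · have h0 : 2 * n / 4096 = 0 := by omega
    rw [step, h0, mul_zero, Nat.xor_zero]
    refine ⟨h, ?_⟩
    rw [toPoly_two_mul hn, sub_self]
    exact dvd_zero _
  · have h0 : 2 * n / 4096 = 1 := by omega
    rw [step, h0, mul_one]
    refine ⟨xor_lt hF hF' (by omega) (by omega), ?_⟩
    rw [toPoly_xor, toPoly_two_mul hn]
    exact ⟨-1, by ring⟩

theorem pw_spec {F : ℕ} (hF : 4096 ≤ F) (hF' : F < 8192) (t : ℕ) :
    pw F t < 4096 ∧ toPoly F ∣ X ^ t - toPoly (pw F t) := by
  induction t with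
  | zero =>
    refine ⟨by norm_num [pw], ?_⟩
    rw [pw, toPoly_one, pow_zero, sub_self]
    exact dvd_zero _
  | succ t ih =>
    obtain ⟨h1, h2⟩ := step_spec hF hF' ih.1
    refine ⟨h1, ?_⟩
    have : X ^ (t + 1) - toPoly (pw F (t + 1)) =
        X * (X ^ t - toPoly (pw F t)) + (X * toPoly (pw F t) - toPoly (step F (pw F t))) := by
      rw [pw]; ring
    rw [this]
    exact dvd_add (Dvd.dvd.mul_left ih.2 X) h2

theorem xs_spec {F : ℕ} (hF : 4096 ≤ F) (hF' : F < 8192) (L : List ℕ) :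
    xs F L < 4096 ∧ toPoly F ∣ (L.map fun t => (X : (ZMod 2)[X]) ^ t).sum - toPoly (xs F L) := by
  induction L with
  | nil => simp [xs, toPoly_zero]
  | cons t L ih =>
    obtain ⟨h1, h2⟩ := pw_spec hF hF' t
    have hx : xs F (t :: L) = pw F t ^^^ xs F L := rfl
    rw [hx]
    refine ⟨Nat.xor_lt_two_pow (n := 12) h1 ih.1, ?_⟩
    rw [List.map_cons, List.sum_cons, toPoly_xor]
    have : X ^ t + (L.map fun t => (X : (ZMod 2)[X]) ^ t).sum - (toPoly (pw F t) + toPoly (xs F L))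
        = (X ^ t - toPoly (pw F t)) +
          ((L.map fun t => (X : (ZMod 2)[X]) ^ t).sum - toPoly (xs F L)) := by ring
    rw [this]
    exact dvd_add h2 ih.2

theorem natDegree_toPoly {F : ℕ} (hF : 4096 ≤ F) (hF' : F < 8192) :
    (toPoly F).natDegree = 12 ∧ (toPoly F).Monic := by
  have hb : F.testBit 12 = true := by
    have h3 : F / 4096 = 1 := by omega
    rw [Nat.testBit_eq_decide_div_mod_eq]
    norm_num [h3]
  have hc : (toPoly F).coeff 12 = 1 := by
    rw [coeff_toPoly, if_pos ⟨by norm_num, hb⟩]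
  have hd : (toPoly F).natDegree = 12 := by
    refine natDegree_eq_of_le_of_coeff_ne_zero ?_ (by rw [hc]; exact one_ne_zero)
    rw [natDegree_le_iff_coeff_eq_zero]
    intro i hi
    rw [coeff_toPoly, if_neg]
    rintro ⟨h, -⟩
    omega
  exact ⟨hd, by rw [Monic, leadingCoeff, hd, hc]⟩

theorem dvd_pow_sub_one_iff {F : ℕ} (hF : 4096 ≤ F) (hF' : F < 8192) (t : ℕ) :
    toPoly F ∣ X ^ t - 1 ↔ pw F t = 1 := by
  obtain ⟨h1, h2⟩ := pw_spec hF hF' t
  constructor
  · intro h
    have h3 : toPoly F ∣ toPoly (pw F t ^^^ 1) := by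
      rw [toPoly_xor, toPoly_one]
      have h0 : (2 : (ZMod 2)[X]) = 0 := CharTwo.two_eq_zero
      have : toPoly (pw F t) + 1 = (X ^ t - 1) - (X ^ t - toPoly (pw F t)) := by
        linear_combination h0
      rw [this]
      exact dvd_sub h h2
    have h4 : pw F t ^^^ 1 < 2 ^ 12 := Nat.xor_lt_two_pow h1 (by norm_num)
    have h5 := eq_zero_of_dvd_of_degree_lt h3 (by
      rw [degree_eq_natDegree (natDegree_toPoly hF hF').2.ne_zero, (natDegree_toPoly hF hF').1]
      exact degree_toPoly_lt h4)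
    have h6 := toPoly_eq_zero (by omega) h5
    exact Nat.xor_eq_zero_iff.1 h6
  · intro h
    rw [h, toPoly_one] at h2
    exact h2

/-- The exponent of the polynomial coded by `F`. -/
theorem isExponent_toPoly {F : ℕ} (hF : 4096 ≤ F) (hF' : F < 8192) (h585 : pw F 585 = 1)
    (h195 : pw F 195 ≠ 1) (h117 : pw F 117 ≠ 1) (h45 : pw F 45 ≠ 1) :
    IsExponent (toPoly F) (5 * 117) := by
  have key : ∀ k : ℕ, toPoly F ∣ X ^ k - 1 ↔ (AdjoinRoot.root (toPoly F)) ^ k = 1 := by
    intro k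
    rw [← AdjoinRoot.mk_eq_zero, map_sub, map_pow, map_one, AdjoinRoot.mk_X, sub_eq_zero]
  have hord : orderOf (AdjoinRoot.root (toPoly F)) = 585 := by
    refine orderOf_eq_of_pow_and_pow_div_prime (by norm_num) ?_ ?_
    · rw [← key, dvd_pow_sub_one_iff hF hF']
      exact h585
    · intro p hp hpd
      rw [Ne, ← key, dvd_pow_sub_one_iff hF hF']
      have h1 : p ∣ 3 * 3 * (5 * 13) := by
        norm_num
        exact hpd
      rcases (Nat.Prime.dvd_mul hp).1 h1 with h2 | h2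
      · rcases (Nat.Prime.dvd_mul hp).1 h2 with h3 | h3 <;>
        · rw [(Nat.prime_dvd_prime_iff_eq hp (by norm_num)).1 h3]
          exact h195
      · rcases (Nat.Prime.dvd_mul hp).1 h2 with h3 | h3
        · rw [(Nat.prime_dvd_prime_iff_eq hp (by norm_num)).1 h3]
          exact h117
        · rw [(Nat.prime_dvd_prime_iff_eq hp (by norm_num)).1 h3]
          exact h45
  constructor
  · refine ⟨by norm_num, ?_⟩
    have h1 := pow_orderOf_eq_one (AdjoinRoot.root (toPoly F))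
    rw [hord] at h1
    exact (key _).2 h1
  · rintro k ⟨hk1, hk2⟩
    rw [key] at hk2
    have := Nat.le_of_dvd hk1 (orderOf_dvd_of_pow_eq_one hk2)
    rw [hord] at this
    exact this

/-- An irreducibility criterion in degree `12`. -/
theorem irreducible_of_cert {f : (ZMod 2)[X]} (hm : f.Monic) (hdeg : f.natDegree = 12)
    (h585 : f ∣ X ^ 585 - 1) (u : (ZMod 2)[X]) (hu : f ∣ (X ^ 45 - 1) * u - 1) :
    Irreducible f := by
  have hne1 : f ≠ 1 := by
    rintro rfl
    simp at hdeg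
  rw [hm.irreducible_iff_lt_natDegree_lt hne1]
  intro q hq hqd hqf
  rw [hdeg, Finset.mem_Ioc] at hqd
  have hq1 : ¬ IsUnit q := by
    intro hunit
    have := natDegree_eq_zero_of_isUnit hunit
    omega
  obtain ⟨p, hp, hpq⟩ := WfDvdMonoid.exists_irreducible_factor hq1 hq.ne_zero
  have hpf : p ∣ f := hpq.trans hqf
  have hpd : p.natDegree ≤ 6 := (natDegree_le_of_dvd hpq hq.ne_zero).trans (by omega)
  have hpd' : 0 < p.natDegree := hp.natDegree_pos
  have : Fact (Irreducible p) := ⟨hp⟩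
  have : Module.Finite (ZMod 2) (AdjoinRoot p) := (AdjoinRoot.powerBasis hp.ne_zero).finite
  have : Finite (AdjoinRoot p) := Module.finite_of_finite (ZMod 2)
  have := Fintype.ofFinite (AdjoinRoot p)
  have hcard : Fintype.card (AdjoinRoot p) = 2 ^ p.natDegree := by
    rw [Module.card_eq_pow_finrank (K := ZMod 2), ZMod.card,
      (AdjoinRoot.powerBasis hp.ne_zero).finrank, AdjoinRoot.powerBasis_dim]
  have key : ∀ k : ℕ, p ∣ X ^ k - 1 ↔ (AdjoinRoot.root p) ^ k = 1 := by
    intro k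
    rw [← AdjoinRoot.mk_eq_zero, map_sub, map_pow, map_one, AdjoinRoot.mk_X, sub_eq_zero]
  have hα : (AdjoinRoot.root p) ^ 585 = 1 := (key _).1 (hpf.trans h585)
  have hα0 : AdjoinRoot.root p ≠ 0 := by
    intro h0
    rw [h0] at hα
    simp at hα
  have hα1 : (AdjoinRoot.root p) ^ (2 ^ p.natDegree - 1) = 1 := by
    rw [← hcard]
    exact FiniteField.pow_card_sub_one_eq_one _ hα0
  have hord : orderOf (AdjoinRoot.root p) ∣ 45 := by
    have h1 := Nat.dvd_gcd (orderOf_dvd_of_pow_eq_one hα) (orderOf_dvd_of_pow_eq_one hα1)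
    refine h1.trans ?_
    generalize p.natDegree = d at hpd hpd'
    interval_cases d <;> decide
  have h45 : p ∣ X ^ 45 - 1 := (key _).2 (orderOf_dvd_iff_pow_eq_one.1 hord)
  have h1 : p ∣ 1 := by
    have := dvd_sub (Dvd.dvd.mul_right h45 u) (hpf.trans hu)
    simpa using this
  exact hp.not_isUnit (isUnit_of_dvd_one h1)

theorem sum_map_shift (k : ℕ) (I : List ℕ) :
    ((I.map (k + ·)).map fun t => (X : (ZMod 2)[X]) ^ t).sum =
      X ^ k * (I.map fun t => (X : (ZMod 2)[X]) ^ t).sum := by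
  induction I with
  | nil => simp
  | cons a I ih =>
    simp only [List.map_cons, List.sum_cons] at ih ⊢
    rw [ih, mul_add, pow_add]

/-- The certificate for the invertibility of `X ^ 45 - 1` is a list of exponents. -/
theorem irreducible_toPoly {F : ℕ} (hF : 4096 ≤ F) (hF' : F < 8192) (h585 : pw F 585 = 1)
    (I : List ℕ) (hI : xs F (I.map (45 + ·) ++ I) = 1) : Irreducible (toPoly F) := by
  obtain ⟨hd, hm⟩ := natDegree_toPoly hF hF'
  refine irreducible_of_cert hm hd ((dvd_pow_sub_one_iff hF hF' 585).2 h585)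
    (I.map fun t => (X : (ZMod 2)[X]) ^ t).sum ?_
  have h := (xs_spec hF hF' (I.map (45 + ·) ++ I)).2
  rw [hI, toPoly_one, List.map_append, List.sum_append, sum_map_shift] at h
  have h0 : (2 : (ZMod 2)[X]) = 0 := CharTwo.two_eq_zero
  generalize (I.map fun t => (X : (ZMod 2)[X]) ^ t).sum = u at h ⊢
  generalize (X : (ZMod 2)[X]) ^ 45 = v at h ⊢
  have h1 : (v - 1) * u - 1 = v * u + u - 1 := by linear_combination - u * h0
  rw [h1]
  exact h

/-! ### The counterexample -/

/-- The index `t < 585` with `t ≡ a` modulo `5` and `t ≡ b` modulo `117`. -/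
def κ (p : ℕ × ℕ) : ℕ := (351 * p.1 + 235 * p.2) % 585

theorem injective_of_cert {F : ℕ} (hF : 4096 ≤ F) (hF' : F < 8192) (L : List (List (ℕ × ℕ)))
    (hL : ∀ j < 12, (∀ p ∈ L.getD j [], p.1 < 3 ∧ p.2 < 4 ∧ κ p % 5 = p.1 ∧ κ p % 117 = p.2) ∧
      xs F ((L.getD j []).map κ) = 2 ^ j) (s : ℕ → ZMod 2) (hs : GeneratedBy (toPoly F) s)
    (h0 : ∀ (a : Fin 3) (b : Fin 4) (t : ℕ), (t : ZMod 5) = (a : ℕ) → (t : ZMod 117) = (b : ℕ) →
      s t = 0) : s = 0 := by
  obtain ⟨hd, hm⟩ := natDegree_toPoly hF hF'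
  have hinit : ∀ j < 12, s j = 0 := by
    intro j hj
    obtain ⟨h1, h2⟩ := hL j hj
    generalize L.getD j [] = l at h1 h2
    have h3 := hs.of_dvd (xs_spec hF hF' (l.map κ)).2
    rw [h2, toPoly_two_pow (by omega), generatedBy_iff, map_sub, map_pow, aeval_X] at h3
    have h4 := congrFun h3 0
    rw [LinearMap.sub_apply, Pi.sub_apply, S_pow_apply, zero_add, Pi.zero_apply, sub_eq_zero] at h4
    rw [← h4]
    clear h2 h3 h4
    induction l with
    | nil => simp
    | cons p l ih =>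
      rw [List.map_cons, List.map_cons, List.sum_cons, map_add, LinearMap.add_apply, Pi.add_apply,
        ih fun q hq => h1 q (List.mem_cons_of_mem _ hq), add_zero, map_pow, aeval_X, S_pow_apply,
        zero_add]
      obtain ⟨hp1, hp2, hp3, hp4⟩ := h1 p (List.mem_cons_self)
      refine h0 ⟨p.1, hp1⟩ ⟨p.2, hp2⟩ (κ p) ?_ ?_
      · rw [ZMod.natCast_eq_natCast_iff]
        change κ p % 5 = p.1 % 5
        rw [hp3, Nat.mod_eq_of_lt (by omega)]
      · rw [ZMod.natCast_eq_natCast_iff]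
        change κ p % 117 = p.2 % 117
        rw [hp4, Nat.mod_eq_of_lt (by omega)]
  have hsol := (isSolution_iff hm s).2 hs
  have h1 : (recur (toPoly F)).toInit ⟨s, hsol⟩ = (recur (toPoly F)).toInit 0 := by
    funext i
    have hi : (i : ℕ) < 12 := lt_of_lt_of_eq i.2 hd
    change s i = 0
    exact hinit i hi
  exact congrArg Subtype.val ((recur (toPoly F)).toInit.injective h1)

/-- The certificates for `f`. -/
def LF : List (List (ℕ × ℕ)) :=
  [[(0, 0)], [(1, 1)], [(2, 2)], [(0, 0), (0, 3), (1, 2), (2, 1), (2, 3)],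
   [(0, 0), (0, 2), (0, 3), (1, 1), (2, 2)], [(0, 1), (0, 2), (1, 2), (2, 1), (2, 2), (2, 3)],
   [(0, 0), (0, 1), (0, 3), (1, 1), (2, 1), (2, 2), (2, 3)], [(0, 2), (1, 1), (2, 1)],
   [(0, 0), (0, 1), (1, 0), (1, 1), (1, 2), (2, 0)], [(0, 3), (1, 0), (1, 1), (1, 2), (2, 1)],
   [(0, 2), (0, 3), (1, 0), (1, 2), (2, 0), (2, 1), (2, 3)],
   [(0, 0), (0, 2), (1, 0), (1, 3), (2, 1), (2, 3)]]

/-- The certificates for `g`. -/
def LG : List (List (ℕ × ℕ)) :=
  [[(0, 0)], [(1, 1)], [(2, 2)], [(0, 0), (0, 1), (1, 0), (2, 2)],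
   [(0, 0), (0, 1), (1, 0), (1, 1), (1, 2), (2, 1), (2, 2)],
   [(0, 3), (1, 0), (1, 2), (1, 3), (2, 0), (2, 1), (2, 2)],
   [(0, 1), (0, 2), (1, 0), (1, 1), (1, 2), (2, 0), (2, 1), (2, 2)],
   [(0, 0), (0, 2), (0, 3), (1, 1), (1, 2), (1, 3), (2, 1), (2, 2)],
   [(0, 0), (0, 1), (1, 2)], [(1, 1), (1, 2), (2, 3)], [(0, 1), (0, 2), (1, 1), (2, 2)],
   [(0, 0), (0, 1), (1, 0), (1, 2), (1, 3)]]

/-- The relation between the positions of the `3 × 8` window, modulo `f * g`. -/
def LH : List (Fin 3 × Fin 8) :=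
  [(0, 0), (0, 3), (0, 5), (0, 6), (0, 7), (1, 2), (1, 3), (1, 7), (2, 0), (2, 2), (2, 3), (2, 5),
   (2, 6)]

/-- The map `κ` on positions in the `3 × 8` window. -/
def κ' (p : Fin 3 × Fin 8) : ℕ := κ (p.1, p.2)

theorem toPoly_6179 : toPoly 6179 = X ^ 12 + X ^ 11 + X ^ 5 + X + 1 := by
  have e : 6179 = 2 ^ 12 ^^^ 2 ^ 11 ^^^ 2 ^ 5 ^^^ 2 ^ 1 ^^^ 2 ^ 0 := by decide
  rw [e, toPoly_xor, toPoly_xor, toPoly_xor, toPoly_xor, toPoly_two_pow (by norm_num),
    toPoly_two_pow (by norm_num), toPoly_two_pow (by norm_num), toPoly_two_pow (by norm_num),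
    toPoly_two_pow (by norm_num), pow_one, pow_zero]

theorem toPoly_5227 : toPoly 5227 = X ^ 12 + X ^ 10 + X ^ 6 + X ^ 5 + X ^ 3 + X + 1 := by
  have e : 5227 = 2 ^ 12 ^^^ 2 ^ 10 ^^^ 2 ^ 6 ^^^ 2 ^ 5 ^^^ 2 ^ 3 ^^^ 2 ^ 1 ^^^ 2 ^ 0 := by decide
  rw [e, toPoly_xor, toPoly_xor, toPoly_xor, toPoly_xor, toPoly_xor, toPoly_xor,
    toPoly_two_pow (by norm_num), toPoly_two_pow (by norm_num), toPoly_two_pow (by norm_num),
    toPoly_two_pow (by norm_num), toPoly_two_pow (by norm_num), toPoly_two_pow (by norm_num),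
    toPoly_two_pow (by norm_num), pow_one, pow_zero]

/-- **Disproof of Q1.** For `(r₁, r₂; n₁, n₂) = (5, 117; 3, 4)` (so `n₁ < r₁ < 2 n₁` and
`gcd(r₁, r₂) = 1`) the distinct irreducible polynomials `f`, `g` of degree `n₁ n₂ = 12` and exponent
`r₁ r₂ = 585` below each fold to a `(5, 117; 3, 4)`-PRAC, but their product does not fold to a
`(5, 117; 3, 8)`-PRAC. -/
theorem result :
    ∃ f g : (ZMod 2)[X], f = X ^ 12 + X ^ 11 + X ^ 5 + X + 1 ∧
      g = X ^ 12 + X ^ 10 + X ^ 6 + X ^ 5 + X ^ 3 + X + 1 ∧ f ≠ g ∧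
      (∀ h ∈ ({f, g} : Set (ZMod 2)[X]), Irreducible h ∧ h.natDegree = 3 * 4 ∧
        IsExponent h (5 * 117) ∧ (∃ C : Set (Arr 5 117), IsFoldedCode h C) ∧
        ∀ C : Set (Arr 5 117), IsFoldedCode h C → IsPRAC 5 117 3 4 C) ∧
      (∃ C : Set (Arr 5 117), IsFoldedCode (f * g) C) ∧
      ∀ C : Set (Arr 5 117), IsFoldedCode (f * g) C → ¬ IsPRAC 5 117 3 (2 * 4) C := by
  have hco : Nat.Coprime 5 117 := by decide
  have hF : 4096 ≤ 6179 := by norm_num
  have hF' : 6179 < 8192 := by norm_num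
  have hG : 4096 ≤ 5227 := by norm_num
  have hG' : 5227 < 8192 := by norm_num
  have hF585 : pw 6179 585 = 1 := by decide +kernel
  have hG585 : pw 5227 585 = 1 := by decide +kernel
  have hFirr : Irreducible (toPoly 6179) := irreducible_toPoly hF hF' hF585
    [0, 2, 3, 5, 6, 7, 8, 10] (by decide +kernel)
  have hGirr : Irreducible (toPoly 5227) := irreducible_toPoly hG hG' hG585
    [0, 1, 4, 5] (by decide +kernel)
  have hFexp : IsExponent (toPoly 6179) (5 * 117) := isExponent_toPoly hF hF' hF585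
    (by decide +kernel) (by decide +kernel) (by decide +kernel)
  have hGexp : IsExponent (toPoly 5227) (5 * 117) := isExponent_toPoly hG hG' hG585
    (by decide +kernel) (by decide +kernel) (by decide +kernel)
  obtain ⟨hFd, hFm⟩ := natDegree_toPoly hF hF'
  obtain ⟨hGd, hGm⟩ := natDegree_toPoly hG hG'
  have hne : toPoly 6179 ≠ toPoly 5227 := by
    intro h
    have h1 : toPoly (6179 ^^^ 5227) = 0 := by
      rw [toPoly_xor, h]
      exact CharTwo.add_self_eq_zero _
    exact absurd (toPoly_eq_zero (by decide) h1) (by decide)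
  have hcop : IsCoprime (toPoly 6179) (toPoly 5227) := by
    rw [hFirr.coprime_iff_not_dvd]
    intro hdvd
    exact hne (eq_of_monic_of_dvd_of_natDegree_le hFm hGm hdvd (by rw [hFd, hGd])).symm
  have hdvd : toPoly 6179 * toPoly 5227 ∣ X ^ (5 * 117) - 1 := hcop.mul_dvd hFexp.1.2 hGexp.1.2
  have hFinj : ∀ s, GeneratedBy (toPoly 6179) s → (∀ (a : Fin 3) (b : Fin 4) (t : ℕ),
      (t : ZMod 5) = (a : ℕ) → (t : ZMod 117) = (b : ℕ) → s t = 0) → s = 0 :=
    injective_of_cert hF hF' LF (by decide +kernel)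
  have hGinj : ∀ s, GeneratedBy (toPoly 5227) s → (∀ (a : Fin 3) (b : Fin 4) (t : ℕ),
      (t : ZMod 5) = (a : ℕ) → (t : ZMod 117) = (b : ℕ) → s t = 0) → s = 0 :=
    injective_of_cert hG hG' LG (by decide +kernel)
  refine ⟨toPoly 6179, toPoly 5227, toPoly_6179, toPoly_5227, hne, ?_,
    exists_isFoldedCode hco hdvd, ?_⟩
  · rintro h (rfl | rfl)
    · exact ⟨hFirr, hFd, hFexp, exists_isFoldedCode hco hFexp.1.2,
        isPRAC_of_injective hco hFirr hFm hFexp hFd (by decide) hFinj⟩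
    · exact ⟨hGirr, hGd, hGexp, exists_isFoldedCode hco hGexp.1.2,
        isPRAC_of_injective hco hGirr hGm hGexp hGd (by decide) hGinj⟩
  · have hsum : ∀ H : ℕ, 4096 ≤ H → H < 8192 → xs H (LH.map κ') = 0 →
        toPoly H ∣ ∑ p ∈ LH.toFinset, X ^ κ' p := by
      intro H hH hH' hx
      rw [List.sum_toFinset _ (by decide)]
      have h1 := (xs_spec hH hH' (LH.map κ')).2
      rw [hx, toPoly_zero, sub_zero, List.map_map] at h1
      exact h1
    exact not_isPRAC_of_relation hco hdvd LH.toFinset κ' (by decide) (by decide)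
      ⟨(0, 0), by decide⟩
      (hcop.mul_dvd (hsum 6179 hF hF' (by decide +kernel)) (hsum 5227 hG hG' (by decide +kernel)))

end Pool.Agent.Results.MP_2c8f22_co.ProductNotPRAC
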